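import Pool.Agent.Helper179.SiegelFinal

open MeasureTheory Filter Topology

namespace Pool.Agent.Results.MP_9ac7bc_an.SiegelCLT

open Pool.Agent.Helper179.Eq Pool.Agent.Helper179.Siegel

/-- The elementary Henon map `(x, y) ↦ (y, p(y) - a x)`. -/
noncomputable def elementaryHenon (p : Polynomial ℂ) (a : ℂ) (z : ℂ × ℂ) : ℂ × ℂ :=
  (z.2, p.eval z.2 - a * z.1)

/-- Complex Henon maps: compositions `h₁ ∘ ⋯ ∘ h_k` (`k ≥ 1`) of elementary Henon maps with
polynomials of degree at least `2` and non-zero parameters `a`. -/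
inductive IsComplexHenon : (ℂ × ℂ → ℂ × ℂ) → Prop
  | elementary (p : Polynomial ℂ) (a : ℂ) (hp : 2 ≤ p.natDegree) (ha : a ≠ 0) :
      IsComplexHenon (elementaryHenon p a)
  | comp (p : Polynomial ℂ) (a : ℂ) (f : ℂ × ℂ → ℂ × ℂ) (hp : 2 ≤ p.natDegree) (ha : a ≠ 0)
      (hf : IsComplexHenon f) : IsComplexHenon (elementaryHenon p a ∘ f)

/-- The normalised Birkhoff sum `Z_n = (S_n(g) - n ∫ g dμ) / √n`, where
`S_n(g) = g + g∘f + ⋯ + g∘f^{n-1}`. -/
noncomputable def normalisedSum (f : ℂ × ℂ → ℂ × ℂ) (μ : Measure (ℂ × ℂ)) (g : ℂ × ℂ → ℝ) (n : ℕ)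
    (x : ℂ × ℂ) : ℝ :=
  (∑ j ∈ Finset.range n, g (f^[j] x) - n * ∫ z, g z ∂μ) / Real.sqrt n

/-- The central limit theorem for the observable `g` with asymptotic standard deviation `σ`:
if `σ > 0`, for every interval `I` the probability `μ(Z_n ∈ I)` tends to the Gaussian probability
of `I`; if `σ = 0`, for every `δ > 0` the probability `μ(Z_n ∈ (-δ, δ))` tends to `1`. -/
def SatisfiesCLT (f : ℂ × ℂ → ℂ × ℂ) (μ : Measure (ℂ × ℂ)) (g : ℂ × ℂ → ℝ) (σ : ℝ) : Prop :=
  (0 < σ → ∀ I : Set ℝ, I.OrdConnected →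
    Tendsto (fun n : ℕ => μ.real {x | normalisedSum f μ g n x ∈ I}) atTop
      (𝓝 (1 / Real.sqrt (2 * Real.pi * σ ^ 2) * ∫ t in I, Real.exp (-t ^ 2 / (2 * σ ^ 2))))) ∧
  (σ = 0 → ∀ δ : ℝ, 0 < δ →
    Tendsto (fun n : ℕ => μ.real {x | normalisedSum f μ g n x ∈ Set.Ioo (-δ) δ}) atTop (𝓝 1))

lemma mapS_henon : IsComplexHenon mapS := by
  have h : mapS = elementaryHenon (Polynomial.X ^ 2 + Polynomial.C bb * Polynomial.X) (1 / 4) := by
    funext z
    simp [mapS, elementaryHenon]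
  rw [h]
  refine IsComplexHenon.elementary _ _ ?_ (by norm_num)
  have : (Polynomial.X ^ 2 + Polynomial.C bb * Polynomial.X : Polynomial ℂ).natDegree = 2 := by
    compute_degree!
  omega

lemma gauss_pos {σ : ℝ} (hσ : 0 < σ) :
    0 < 1 / Real.sqrt (2 * Real.pi * σ ^ 2) *
      ∫ t in Set.Icc (-1 : ℝ) 1, Real.exp (-t ^ 2 / (2 * σ ^ 2)) := by
  apply mul_pos (by positivity)
  have hcont : Continuous (fun t : ℝ => Real.exp (-t ^ 2 / (2 * σ ^ 2))) := by fun_prop
  have h1 : ∫ _t in Set.Icc (-1 : ℝ) 1, Real.exp (-1 / (2 * σ ^ 2)) ≤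
      ∫ t in Set.Icc (-1 : ℝ) 1, Real.exp (-t ^ 2 / (2 * σ ^ 2)) := by
    apply setIntegral_mono_on (by simp) (hcont.continuousOn.integrableOn_compact isCompact_Icc)
      measurableSet_Icc
    intro t ht
    apply Real.exp_le_exp.2
    apply div_le_div_of_nonneg_right _ (by positivity)
    have h2 := ht.1
    have h3 := ht.2
    nlinarith
  refine lt_of_lt_of_le ?_ h1
  rw [setIntegral_const]
  simp only [Real.volume_real_Icc, smul_eq_mul]
  have := Real.exp_pos (-1 / (2 * σ ^ 2))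
  norm_num
  exact this

/-- The central limit theorem fails for some complex Henon map, some Hölder continuous weight with
exactly one equilibrium state and some Hölder continuous observable. -/
theorem result : ¬ ∀ f : ℂ × ℂ → ℂ × ℂ, IsComplexHenon f → ∀ φ : ℂ × ℂ → ℝ, IsHolder φ →
    ∀ μ : Measure (ℂ × ℂ), IsEquilibriumState f φ μ →
      (∀ ν : Measure (ℂ × ℂ), IsEquilibriumState f φ ν → ν = μ) →
      ∀ g : ℂ × ℂ → ℝ, IsHolder g → ∃ σ : ℝ, 0 ≤ σ ∧ SatisfiesCLT f μ g σ := by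
  intro hall
  obtain ⟨M, g, n, he, hu, hg, hmean, hn, hesc, _⟩ := siegel_summary
  obtain ⟨σ, hσ, h1, h2⟩ := hall mapS mapS_henon _ (isHolder_wgt M) muT he hu g hg
  have hprob := muT_inv.1
  have hZ : ∀ m x, normalisedSum mapS muT g m x = bsum mapS g m x / Real.sqrt m := by
    intro m x
    unfold normalisedSum bsum
    rw [hmean, mul_zero, sub_zero]
  have hzero : Tendsto (fun J => muT.real {x | normalisedSum mapS muT g (n J) x ∈
      Set.Icc (-1 : ℝ) 1}) atTop (𝓝 0) := by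
    have h3 := (ENNReal.tendsto_toReal ENNReal.zero_ne_top).comp (hesc 1)
    rw [ENNReal.toReal_zero] at h3
    refine squeeze_zero' (Eventually.of_forall fun _ => measureReal_nonneg) ?_ h3
    filter_upwards [hn.eventually_ge_atTop 1] with J hJ
    simp only [Function.comp_apply]
    apply ENNReal.toReal_mono (measure_ne_top _ _)
    apply measure_mono
    intro x hx
    simp only [Set.mem_ofPred_eq, hZ, Set.mem_Icc] at hx ⊢
    have hpos : 0 < Real.sqrt (n J) := by
      apply Real.sqrt_pos.2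
      have : 0 < n J := hJ
      exact_mod_cast this
    rw [one_mul, ← abs_le, abs_div, abs_of_pos hpos, div_le_one hpos] at *
    exact hx
  rcases hσ.eq_or_lt with h | h
  · have h3 := (h2 h.symm 1 one_pos).comp hn
    have h4 : Tendsto (fun J => muT.real {x | normalisedSum mapS muT g (n J) x ∈
        Set.Ioo (-1 : ℝ) 1}) atTop (𝓝 0) := by
      refine squeeze_zero (fun _ => measureReal_nonneg) (fun J => ?_) hzero
      apply measureReal_mono
      · intro x hx
        exact Set.Ioo_subset_Icc_self hx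
      · exact measure_ne_top _ _
    have h5 := tendsto_nhds_unique h3 h4
    norm_num at h5
  · have h3 := (h1 h (Set.Icc (-1) 1) Set.ordConnected_Icc).comp hn
    have h4 := tendsto_nhds_unique h3 hzero
    have h5 := gauss_pos h
    linarith

end Pool.Agent.Results.MP_9ac7bc_an.SiegelCLT
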